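import Pool.Agent.Y504.CO.Stm7
import Pool.Agent.TH80.OMS.KSDil

/-!
# Hyperbolicity of all fixed points of an iterate is a dense condition
(adaptation of `Pool/Agent/TH80/OMS/KSDil.lean`)
-/

set_option autoImplicit false
set_option linter.unusedSectionVars false

open scoped Manifold ContDiff Topology NNReal
open Filter Set Metric

universe u

namespace Pool.Agent.Y930.CO.HD

open Pool.Agent.H718R2.G Pool.Agent.W564.SC Pool.Agent.TH290.CL Pool.Agent.TH80.CLX
open Pool.Agent.TH80.OMS Pool.Agent.Y504.CO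

/-- an eigenvalue, in real terms, is a root of the characteristic polynomial -/
theorem root_of_eig {E : Type} [AddCommGroup E] [Module ℝ E] [FiniteDimensional ℝ E]
    (f : E →ₗ[ℝ] E) (μ : ℂ) (u w : E) (hne : u ≠ 0 ∨ w ≠ 0) (hu : f u = μ.re • u - μ.im • w)
    (hw : f w = μ.im • u + μ.re • w) :
    ((LinearMap.charpoly f).map (algebraMap ℝ ℂ)).IsRoot μ := by
  classical
  set b := Module.finBasis ℝ E with hb
  set M := LinearMap.toMatrix b b f with hM
  set MC := M.map (algebraMap ℝ ℂ) with hMC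
  let ξ : Fin (Module.finrank ℝ E) → ℂ := fun j => (⟨b.repr u j, b.repr w j⟩ : ℂ)
  have e1 : ∀ i, M.mulVec (⇑(b.repr u)) i = μ.re * b.repr u i - μ.im * b.repr w i := by
    intro i
    rw [hM, LinearMap.toMatrix_mulVec_repr, hu]
    simp
  have e2 : ∀ i, M.mulVec (⇑(b.repr w)) i = μ.im * b.repr u i + μ.re * b.repr w i := by
    intro i
    rw [hM, LinearMap.toMatrix_mulVec_repr, hw]
    simp
  have hξ0 : ξ ≠ 0 := by
    intro h0
    rcases hne with h | h
    · apply h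
      apply b.repr.map_eq_zero_iff.1
      ext j
      have := congrArg Complex.re (congrFun h0 j)
      simpa [ξ] using this
    · apply h
      apply b.repr.map_eq_zero_iff.1
      ext j
      have := congrArg Complex.im (congrFun h0 j)
      simpa [ξ] using this
  have hξ1 : MC.mulVec ξ = μ • ξ := by
    funext i
    apply Complex.ext
    · have h3 := e1 i
      simp only [Matrix.mulVec, dotProduct, Complex.re_sum, Pi.smul_apply, smul_eq_mul,
        Complex.mul_re] at h3 ⊢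
      rw [← h3]
      refine Finset.sum_congr rfl fun j _ => ?_
      simp [hMC, ξ]
    · have h3 := e2 i
      simp only [Matrix.mulVec, dotProduct, Complex.im_sum, Pi.smul_apply, smul_eq_mul,
        Complex.mul_im] at h3 ⊢
      rw [add_comm (μ.re * _), ← h3]
      refine Finset.sum_congr rfl fun j _ => ?_
      simp [hMC, ξ]
  have h2 : Module.End.HasEigenvalue (Matrix.toLin' MC) μ :=
    Module.End.hasEigenvalue_of_hasEigenvector (x := ξ) ⟨by
      rw [Module.End.mem_eigenspace_iff, Matrix.toLin'_apply]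
      exact hξ1, hξ0⟩
  rw [Module.End.hasEigenvalue_iff_isRoot_charpoly, Matrix.charpoly_toLin', hMC,
    Matrix.charpoly_map, hM, LinearMap.charpoly_toMatrix] at h2
  exact h2

theorem finite_bad (hEIG : S_EIG) {n : ℕ} (A : V n →L[ℝ] V n) :
    {t : ℝ | 0 < t ∧ ¬ NoBdd (fun _ => t • A)}.Finite := by
  classical
  have h1 : {μ : ℂ | ((LinearMap.charpoly (A : V n →ₗ[ℝ] V n)).map
      (algebraMap ℝ ℂ)).IsRoot μ}.Finite := by
    have hmon : ((LinearMap.charpoly (A : V n →ₗ[ℝ] V n)).map (algebraMap ℝ ℂ)).Monic :=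
      (LinearMap.charpoly_monic _).map _
    exact Polynomial.finite_setOfPred_isRoot hmon.ne_zero
  refine (h1.image (fun μ => ‖μ‖⁻¹)).subset ?_
  rintro t ⟨ht0, ht⟩
  obtain ⟨θ, u, w, hne, hu, hw⟩ := (hEIG n (t • A)).1 ht
  have hu' : t • A u = Real.cos θ • u - Real.sin θ • w := hu
  have hw' : t • A w = Real.sin θ • u + Real.cos θ • w := hw
  refine ⟨⟨Real.cos θ / t, Real.sin θ / t⟩, root_of_eig _ _ u w hne ?_ ?_, ?_⟩
  · show A u = (Real.cos θ / t) • u - (Real.sin θ / t) • w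
    have h2 : A u = t⁻¹ • (t • A u) := by rw [smul_smul, inv_mul_cancel₀ ht0.ne', one_smul]
    rw [h2, hu', smul_sub, smul_smul, smul_smul, div_eq_inv_mul, div_eq_inv_mul]
  · show A w = (Real.sin θ / t) • u + (Real.cos θ / t) • w
    have h2 : A w = t⁻¹ • (t • A w) := by rw [smul_smul, inv_mul_cancel₀ ht0.ne', one_smul]
    rw [h2, hw', smul_add, smul_smul, smul_smul, div_eq_inv_mul, div_eq_inv_mul]
  · have h3 : ‖(⟨Real.cos θ / t, Real.sin θ / t⟩ : ℂ)‖ ^ 2 = (t⁻¹) ^ 2 := by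
      rw [Complex.sq_norm, Complex.normSq_mk]
      have h4 := Real.sin_sq_add_cos_sq θ
      field_simp
      linarith
    have h5 : ‖(⟨Real.cos θ / t, Real.sin θ / t⟩ : ℂ)‖ = t⁻¹ := by
      have h6 : 0 < t⁻¹ := inv_pos.2 ht0
      exact (pow_left_inj₀ (norm_nonneg _) h6.le two_ne_zero).1 h3
    show ‖(⟨Real.cos θ / t, Real.sin θ / t⟩ : ℂ)‖⁻¹ = t
    rw [h5, inv_inv]

/-- `x` is hyperbolic for `g^[k]`, in some chart -/
def HypA (n : ℕ) {N : Type u} [TopologicalSpace N] [ChartedSpace (V n) N] (k : ℕ) (g : N → N)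
    (x : N) : Prop :=
  ∃ ψ ∈ IsManifold.maximalAtlas (𝓡 n) ∞ N, x ∈ ψ.source ∧
    NoBdd (fun _ => fderiv ℝ (fun u => ψ (g^[k] (ψ.symm u))) (ψ x))

variable {n : ℕ} {N : Type u} [TopologicalSpace N] [ChartedSpace (V n) N]
  [IsManifold (𝓡 n) ∞ N] [T2Space N]

theorem hyp_open (hNB : S_NB.{u}) {r : ℕ∞} (hr : 1 ≤ r) (k : ℕ) (x : N) :
    FO n N r (fun G => G^[k] x = x → HypA n k G x) := by
  intro j H hH hx
  by_cases hf : (H 0)^[k] x = x
  · obtain ⟨ψ, hψ, hxψ, hnb⟩ := hx hf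
    obtain ⟨ε, hε, hB⟩ := hNB.1 n _ hnb
    have h1 := joint_chart hr hH k hψ hxψ (by rw [hf]; exact hxψ)
    have h2 := (fderiv_joint h1).1
    have h3 : ContinuousAt (fun s : V j => (s, ψ x)) (0 : V j) :=
      continuousAt_id.prodMk continuousAt_const
    have h4 : ContinuousAt (fun s : V j => fderiv ℝ (fun v => ψ ((H s)^[k] (ψ.symm v))) (ψ x))
        (0 : V j) := ContinuousAt.comp (x := (0 : V j)) (f := fun s : V j => (s, ψ x))
          (g := fun q : V j × V n => fderiv ℝ (fun v => ψ ((H q.1)^[k] (ψ.symm v))) q.2) h2 h3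
    have h5 := h4.eventually (Metric.ball_mem_nhds _ hε)
    filter_upwards [h5] with s hs _
    refine ⟨ψ, hψ, hxψ, hB _ ?_⟩
    rw [dist_eq_norm] at hs
    exact hs
  · have h1 := notfix_open hH k x hf
    have h2 : Tendsto (fun s : V j => (s, x)) (𝓝 0) (𝓝 ((0 : V j), x)) :=
      (continuous_id.prodMk continuous_const).tendsto 0
    filter_upwards [h2.eventually h1] with s hs h
    exact absurd h hs

variable [CompactSpace N]

theorem hd_step (hEIG : S_EIG) {r : ℕ∞} (hr : 1 ≤ r) (K : ℕ) (hK : 1 ≤ K) (G : DiffM n N r)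
    (Q : DiffM n N r → Prop) (hQ : FO n N r Q) (hQG : Q G)
    (hP : Good n K G univ) (p : N) (hpK : G^[K] p = p) :
    ∃ G' : DiffM n N r, Q G' ∧
      (∀ x, G'^[K] x = x → G^[K] x = x) ∧
      (∀ x, G^[K] x = x → ∀ m, G'^[m] x = G^[m] x) ∧ HypA n K G' p := by
  obtain ⟨S, hSd⟩ : ∃ S : Set N, S = {x | G^[K] x = x} := ⟨_, rfl⟩
  have hSmem : ∀ x, x ∈ S ↔ G^[K] x = x := fun x => by rw [hSd]; rfl
  have hSf : S.Finite := by
    rw [hSd]
    exact finite_of_good hr G K hP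
  have hpS : p ∈ S := (hSmem p).2 hpK
  have hGS : ∀ x ∈ S, ∀ m, G^[m] x ∈ S := by
    intro x hx m
    have hix := (hSmem x).1 hx
    refine (hSmem _).2 ?_
    rw [← Function.iterate_add_apply, Nat.add_comm, Function.iterate_add_apply, hix]
  -- the family
  obtain ⟨χ, hg, hχO⟩ := small_chart (n := n) p (S \ {p})ᶜ
    (hSf.subset sdiff_subset).isClosed.isOpen_compl (by simp)
  obtain ⟨F, F', κ, hκ, -, hF, hm, -⟩ := dil_family n
  obtain ⟨Ψ, H, hfam, hH0, hH, hΨ0, hΨc, hΨi, hΨs, hΨo⟩ := push_family r G hg hF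
  set A := χ.symm '' closedBall (0 : V n) (1 / 2) with hA
  have hAs : closedBall (0 : V n) (1 / 2) ⊆ χ.target :=
    (closedBall_subset_closedBall (by norm_num)).trans hg.ball
  have hAc : IsClosed A := ((isCompact_closedBall _ _).image_of_continuousOn
    (χ.continuousOn_symm.mono hAs)).isClosed
  have hSA : ∀ x ∈ S, x ≠ p → x ∉ A := by
    rintro x hx hxp ⟨u, hu, rfl⟩
    exact hχO (χ.map_target (hAs hu)) ⟨hx, hxp⟩
  have hΨp : ∀ s, ‖s‖ < κ → Ψ s p = p := by
    intro s hs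
    obtain ⟨h1, h2⟩ := hΨs s p hg.src
    apply χ.injOn h1 hg.src
    rw [h2, hg.zero, hm s 0 hs (by simp), smul_zero]
  have hΨS : ∀ s, ‖s‖ < κ → ∀ x ∈ S, Ψ s x = x := by
    intro s hs x hx
    by_cases hxp : x = p
    · rw [hxp, hΨp s hs]
    · exact hΨo s x (hSA x hx hxp)
  have hit : ∀ s, ‖s‖ < κ → ∀ x ∈ S, ∀ m, (H s)^[m] x = G^[m] x := by
    intro s hs x hx m
    induction m with
    | zero => rfl
    | succ m ih =>
      rw [Function.iterate_succ_apply', ih, hH, hΨS s hs _ (hGS x hx m),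
        Function.iterate_succ_apply' G]
  have hsm : ∀ᶠ s in 𝓝 (0 : V 1), ‖s‖ < κ := by
    have := (continuous_norm (E := V 1)).tendsto 0
    rw [norm_zero] at this
    exact this.eventually (gt_mem_nhds hκ)
  have hfix : ∀ᶠ s in 𝓝 (0 : V 1), ∀ x, (H s)^[K] x = x → G^[K] x = x := by
    have h1 := fix_const hr hfam K (by rw [hH0]; exact hP) (by
      filter_upwards [hsm] with s hs x hx
      rw [hH0] at hx
      rw [hit s hs x ((hSmem x).2 hx), hx])
    rw [hH0] at h1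
    exact h1
  have hQe := hQ 1 H hfam (by rw [hH0]; exact hQG)
  -- the minimal period
  obtain ⟨i₀, hi₀d⟩ : ∃ i₀ : ℕ, i₀ = Function.minimalPeriod G p := ⟨_, rfl⟩
  have hper : Function.IsPeriodicPt G K p := hpK
  have hi₀pos : 0 < i₀ := by
    rw [hi₀d]
    exact hper.minimalPeriod_pos (by omega)
  have hi₀p : G^[i₀] p = p := by
    rw [hi₀d]
    exact Function.isPeriodicPt_minimalPeriod G p
  have hi₀min : ∀ m, 0 < m → m < i₀ → G^[m] p ≠ p := by
    intro m hm0 hmi h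
    rw [hi₀d] at hmi
    exact Function.not_isPeriodicPt_of_pos_of_lt_minimalPeriod hm0.ne' hmi h
  obtain ⟨l, hl⟩ : i₀ ∣ K := by
    rw [hi₀d]
    exact hper.minimalPeriod_dvd
  have hl0 : l ≠ 0 := by
    rintro rfl
    omega
  have hχ0 : (0 : V n) ∈ χ.target := hAs (by simp)
  have hs0 : χ.symm 0 = p := by rw [← hg.zero, χ.left_inv hg.src]
  set D : V n →L[ℝ] V n := fderiv ℝ (fun u => χ (G^[i₀] (χ.symm u))) 0 with hD
  have hDd : HasFDerivAt (fun u => χ (G^[i₀] (χ.symm u))) D 0 :=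
    (chart_diff hr G i₀ hg.mem hχ0 (by rw [hs0, hi₀p]; exact hg.src)).hasFDerivAt
  have hDs : ∀ s : V 1, ‖s‖ < κ →
      HasFDerivAt (fun u => χ ((H s)^[i₀] (χ.symm u))) ((1 + s 0 : ℝ) • D) 0 := by
    intro s hs
    have h1 : ∀ m, 1 ≤ m → m ≤ i₀ → ∀ᶠ y in 𝓝 p, (H s)^[m] y = G^[m] (Ψ s y) := by
      intro m hm1
      induction m with
      | zero => omega
      | succ m ih =>
        intro hmi
        rcases Nat.eq_zero_or_pos m with h0 | h0
        · subst h0
          exact Eventually.of_forall fun y => hH s y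
        · have h2 : ContinuousAt (fun y => G^[m] (Ψ s y)) p :=
            ((G.continuous.iterate m).comp (hΨc s)).continuousAt
          have h3 : ∀ᶠ y in 𝓝 p, G^[m] (Ψ s y) ∈ Aᶜ := by
            apply h2.eventually
            show Aᶜ ∈ 𝓝 (G^[m] (Ψ s p))
            rw [hΨp s hs]
            exact hAc.isOpen_compl.mem_nhds (hSA _ (hGS p hpS m) (hi₀min m h0 (by omega)))
          filter_upwards [ih h0 (by omega), h3] with y hy1 hy2
          rw [Function.iterate_succ_apply', hy1, hH, hΨo s _ hy2, Function.iterate_succ_apply' G]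
    have h4 : ∀ᶠ u in 𝓝 (0 : V n), (H s)^[i₀] (χ.symm u) = G^[i₀] (Ψ s (χ.symm u)) := by
      have h5 : Tendsto χ.symm (𝓝 (0 : V n)) (𝓝 p) := by
        have := χ.continuousAt_symm hχ0
        rwa [ContinuousAt, hs0] at this
      exact h5.eventually (h1 i₀ hi₀pos le_rfl)
    have h6 : ∀ᶠ u in 𝓝 (0 : V n), ‖u‖ < 1 / 4 := by
      have := (continuous_norm (E := V n)).tendsto 0
      rw [norm_zero] at this
      exact this.eventually (gt_mem_nhds (by norm_num))
    have h7 : HasFDerivAt (fun u : V n => (1 + s 0 : ℝ) • u)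
        ((1 + s 0 : ℝ) • ContinuousLinearMap.id ℝ (V n)) 0 :=
      (hasFDerivAt_id (𝕜 := ℝ) (0 : V n)).const_smul (1 + s 0 : ℝ)
    have h8 : HasFDerivAt (fun u => χ (G^[i₀] (χ.symm u))) D ((fun u : V n => (1 + s 0 : ℝ) • u) 0) := by
      show HasFDerivAt (fun u => χ (G^[i₀] (χ.symm u))) D ((1 + s 0 : ℝ) • (0 : V n))
      rw [smul_zero]
      exact hDd
    have h9 := h8.comp (0 : V n) h7
    have h10 : D.comp ((1 + s 0 : ℝ) • ContinuousLinearMap.id ℝ (V n)) = (1 + s 0 : ℝ) • D := by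
      ext w
      simp
    rw [h10] at h9
    refine h9.congr_of_eventuallyEq ?_
    filter_upwards [h4, h6] with u hu1 hu2
    show χ ((H s)^[i₀] (χ.symm u)) = χ (G^[i₀] (χ.symm ((1 + s 0 : ℝ) • u)))
    have hut : u ∈ χ.target := hAs (by
      rw [mem_closedBall, dist_zero_right]
      linarith)
    obtain ⟨k1, k2⟩ := hΨs s (χ.symm u) (χ.map_target hut)
    rw [χ.right_inv hut, hm s u hs hu2] at k2
    rw [hu1, ← k2, χ.left_inv k1]
  have hDK : ∀ s : V 1, ‖s‖ < κ →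
      HasFDerivAt (fun u => χ ((H s)^[K] (χ.symm u))) ((1 + s 0 : ℝ) ^ l • D ^ l) 0 := by
    intro s hs
    have h1 : (H s)^[i₀] p = p := by rw [hit s hs p hpS, hi₀p]
    have h2 := fderiv_iter hg.src hg.zero ((H s)^[i₀])
      (((H s).continuous.iterate i₀).continuousAt) h1 (hDs s hs) l
    rw [← Function.iterate_mul, ← hl] at h2
    have h3 : ((1 + s 0 : ℝ) • D) ^ l = (1 + s 0 : ℝ) ^ l • D ^ l := smul_pow' _ D l
    rw [← h3]
    exact h2
  -- the choice of the parameter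
  let e : ℝ → V 1 := fun τ => WithLp.toLp 2 fun _ => τ
  have he0 : e 0 = 0 := by
    ext i
    rfl
  have hec : Continuous e := by
    have : Continuous (fun τ : ℝ => (fun _ : Fin 1 => τ)) := by fun_prop
    exact (PiLp.continuous_toLp 2 (fun _ : Fin 1 => ℝ)).comp this
  have het : Tendsto e (𝓝[≠] 0) (𝓝 0) := by
    have := hec.tendsto 0
    rw [he0] at this
    exact this.mono_left nhdsWithin_le_nhds
  have hT : ∀ᶠ τ in 𝓝[≠] (0 : ℝ), NoBdd (fun _ => (1 + τ) ^ l • D ^ l) := by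
    have h1 : Tendsto (fun τ : ℝ => (1 + τ) ^ l) (𝓝[≠] 0) (𝓝 1) := by
      have h2 : Continuous (fun τ : ℝ => (1 + τ) ^ l) := by fun_prop
      have h3 := h2.tendsto 0
      simp only [add_zero, one_pow] at h3
      exact h3.mono_left nhdsWithin_le_nhds
    have h4 : ({t : ℝ | 0 < t ∧ ¬ NoBdd (fun _ => t • D ^ l)} \ {1})ᶜ ∈ 𝓝 (1 : ℝ) :=
      ((finite_bad hEIG (D ^ l)).subset sdiff_subset).isClosed.isOpen_compl.mem_nhds (by simp)
    have h7 : ∀ᶠ τ in 𝓝[≠] (0 : ℝ), -1 < τ :=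
      mem_nhdsWithin_of_mem_nhds (lt_mem_nhds (by norm_num))
    have h5 : ∀ᶠ τ in 𝓝[≠] (0 : ℝ), (1 + τ) ^ l ≠ 1 := by
      have h6 : ∀ᶠ τ in 𝓝[≠] (0 : ℝ), τ ≠ 0 := eventually_mem_nhdsWithin
      filter_upwards [h6, h7] with τ h6 h7 h8
      rw [pow_eq_one_iff_of_nonneg (by linarith) hl0] at h8
      exact h6 (by linarith)
    filter_upwards [h1.eventually h4, h5, h7] with τ h8 h9 h11
    by_contra h10
    exact h8 ⟨⟨pow_pos (by linarith) l, h10⟩, h9⟩
  obtain ⟨τ, h1, h2, h3, h4⟩ := ((het.eventually hsm).and ((het.eventually hfix).and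
    ((het.eventually hQe).and hT))).exists
  refine ⟨H (e τ), h3, h2, ?_, ?_⟩
  · intro x hx m
    exact hit _ h1 x ((hSmem x).2 hx) m
  · refine ⟨χ, hg.mem, hg.src, ?_⟩
    rw [hg.zero, (hDK _ h1).fderiv]
    exact h4

theorem hd_global (hEIG : S_EIG) (hNB : S_NB.{u}) {r : ℕ∞} (hr : 1 ≤ r) (K : ℕ) (hK : 1 ≤ K)
    (m : ℕ) : ∀ (G : DiffM n N r) (Q : DiffM n N r → Prop), FO n N r Q → Q G →
      Good n K G univ → {x | G^[K] x = x ∧ ¬ HypA n K G x}.ncard ≤ m →
      ∃ G' : DiffM n N r, Q G' ∧ ∀ x, G'^[K] x = x → HypA n K G' x := by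
  induction m with
  | zero =>
    intro G Q hQ hQG hP hm
    have hfin : {x | G^[K] x = x ∧ ¬ HypA n K G x}.Finite :=
      (finite_of_good hr G K hP).subset fun x hx => hx.1
    have h2 := (Set.ncard_eq_zero hfin).1 (Nat.le_zero.1 hm)
    refine ⟨G, hQG, fun x hxK => ?_⟩
    by_contra h
    have h3 : x ∈ {x | G^[K] x = x ∧ ¬ HypA n K G x} := ⟨hxK, h⟩
    rw [h2] at h3
    exact h3
  | succ m ih =>
    intro G Q hQ hQG hP hm
    by_cases hall : ∀ x, G^[K] x = x → HypA n K G x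
    · exact ⟨G, hQG, hall⟩
    push Not at hall
    obtain ⟨p, hpK, hpN⟩ := hall
    have hSf := finite_of_good hr G K hP
    have hfin : {x | G^[K] x = x ∧ ¬ HypA n K G x}.Finite := hSf.subset fun x hx => hx.1
    have hTf : {x | G^[K] x = x ∧ HypA n K G x}.Finite := hSf.subset fun x hx => hx.1
    obtain ⟨G₁, hG₁, h1, h2, h3⟩ := hd_step hEIG hr K hK G
      (fun G' => (Q G' ∧ Good n K G' univ) ∧
        ∀ x ∈ {x | G^[K] x = x ∧ HypA n K G x}, G'^[K] x = x → HypA n K G' x)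
      ((hQ.and (FO.good hr K isCompact_univ)).and
        (FO.all _ hTf fun x _ => hyp_open hNB hr K x))
      ⟨⟨hQG, hP⟩, fun x hx _ => hx.2⟩ hP p hpK
    apply ih G₁ Q hQ hG₁.1.1 hG₁.1.2
    have hsub : {x | G₁^[K] x = x ∧ ¬ HypA n K G₁ x} ⊆
        {x | G^[K] x = x ∧ ¬ HypA n K G x} \ {p} := by
      rintro x ⟨hx2, hx3⟩
      have hx5 := h1 x hx2
      refine ⟨⟨hx5, fun h => ?_⟩, ?_⟩
      · exact hx3 (hG₁.2 x ⟨hx5, h⟩ hx2)
      · rintro rfl
        exact hx3 h3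
    have h4 := Set.ncard_le_ncard hsub (hfin.subset sdiff_subset)
    have h5 := Set.ncard_sdiff_singleton_lt_of_mem
      (show p ∈ {x | G^[K] x = x ∧ ¬ HypA n K G x} from ⟨hpK, hpN⟩) hfin
    omega

/-- HD, from the first part of `S_EIG` and from `S_NB`. -/
theorem main (hEIG : S_EIG) (hNB : S_NB.{u}) : S_HD.{u} := by
  intro n N _ _ _ _ _ r hr K hK g U hU hgU
  rcases isEmpty_or_nonempty N with hN | ⟨⟨z⟩⟩
  · exact ⟨g, hgU, fun x => hN.elim x⟩
  obtain ⟨G₁, hG₁, h1⟩ := ks hr (K + 1) g (fun G' => G' ∈ U) (FO.mem hr hU z) hgU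
  obtain ⟨G₂, hG₂, h2⟩ := hd_global hEIG hNB hr K hK _ G₁ (fun G' => G' ∈ U) (FO.mem hr hU z) hG₁
    (h1 K ⟨by omega, by omega⟩) le_rfl
  refine ⟨G₂, hG₂, fun x hx ψ hψ hxψ => ?_⟩
  obtain ⟨φ, hφ, hxφ, hnb⟩ := h2 x hx
  exact hNB.2 n N r hr G₂ K x hx φ hφ ψ hψ hxφ hxψ hnb

end Pool.Agent.Y930.CO.HD
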